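import Pool.Agent.TH112.BL.Sys
import Pool.Agent.TH452.BL.J4546
import Pool.Agent.TH928.BL.J4547

/-!
Project BL (helper112): the mean of the product vanishes.
-/

set_option autoImplicit false

namespace Pool.Agent.TH112.BL

open Finset Filter Pool.Agent.H376R2.MR

lemma Psi_inv {ι : Type} [DecidableEq ι] (S : Sys ι) (T : Finset ι) (k₀ z : ι) (hz : z ≠ k₀)
    (hbz : ∀ n, S.b z n = n) (p W : ℕ) (hp : 1 ≤ p) (hW : S.c * p + p ≤ W) (n n' r : ℕ)
    (hwin : win W (let_ S) n = win W (let_ S) n')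
    (hres : ∀ k, k ≠ k₀ → S.b k n % p = S.b k n' % p) :
    Psi S T k₀ p n r = Psi S T k₀ p n' r := by
  have hJ : jj S.c p n = jj S.c p n' := by
    have := hres z hz
    rw [hbz, hbz] at this
    unfold jj
    rw [this]
  unfold Psi
  rw [← hJ]
  set J := jj S.c p n with hJd
  have hJ1 : S.c * p ≤ J := jj_ge _ _ _
  have hJ2 : J < W := lt_of_lt_of_le (jj_lt S.c p n hp) hW
  have key : ∀ (k : ι) (ρ : ℕ), ρ < p →
      lr (S.b k (n + J) - ρ) = lr (S.b k (n' + J) - ρ) := by
    intro k ρ hρ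
    have h1 := read_pos S k hwin J hJ2.le
    have h2 := S.off k p n J hJ1
    have h3 := S.off k p n' J hJ1
    have h4 := read_lam S k hwin J hJ2 (S.b k (n + J) - S.b k n - ρ) (Nat.sub_le _ _)
    have e1 : S.b k n + (S.b k (n + J) - S.b k n - ρ) = S.b k (n + J) - ρ := by omega
    have e2 : S.b k n' + (S.b k (n + J) - S.b k n - ρ) = S.b k (n' + J) - ρ := by omega
    rw [e1, e2] at h4
    unfold lr
    rw [h4]
  have h1 : ∀ k ∈ T.erase k₀, lr (S.b k (n + J) - S.b k (n + J) % p) =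
      lr (S.b k (n' + J) - S.b k (n' + J) % p) := by
    intro k hk
    have hk0 := (mem_erase.1 hk).1
    have h2 := read_pos S k hwin J hJ2.le
    have h3 := mono_add S k n J
    have h4 := mono_add S k n' J
    have h5 : S.b k (n + J) % p = S.b k (n' + J) % p := by
      have e1 : S.b k (n + J) = S.b k n + (S.b k (n + J) - S.b k n) := by omega
      have e2 : S.b k (n' + J) = S.b k n' + (S.b k (n + J) - S.b k n) := by omega
      rw [e2, Nat.add_mod, ← hres k hk0, ← Nat.add_mod, ← e1]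
    rw [← h5]
    exact key k _ (Nat.mod_lt _ hp)
  rw [prod_congr rfl h1, ← read_pos S k₀ hwin J hJ2.le, key k₀ _ (Nat.mod_lt _ hp)]

open scoped Classical in
/-- the mean of the product is zero -/
theorem core (μ : LM) {ι : Type} [Fintype ι] (S : Sys ι) (T : Finset ι) (k₀ z : ι) (hz : z ≠ k₀)
    (hk : k₀ ∈ T) (hbz : ∀ n, S.b z n = n)
    (heq : ∀ W : ℕ, 1 ≤ W → ∀ (r : ℕ) (v : ι → ℕ), r < W →
      μ.m (fun n => if (∀ k, k ≠ k₀ → S.b k n % W = v k) ∧ S.b k₀ n % W = r then 1 else 0) =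
        (1 / (W : ℝ)) * μ.m (fun n => if ∀ k, k ≠ k₀ → S.b k n % W = v k then 1 else 0))
    (hmr : ∀ ε : ℝ, 0 < ε → ∃ p₀ : ℕ, ∀ p : ℕ, p₀ ≤ p → μ.m (fun n => QQ S k₀ p (p * n)) ≤ ε) :
    μ.m (ff S T) = 0 := by
  set s : ℝ := μ.m (ff S T) with hs
  have key : ∀ ε : ℝ, 0 < ε → |s| ≤ 4 * ε := by
    intro ε hε
    obtain ⟨p₀, hp₀⟩ := hmr ε hε
    obtain ⟨i₀, hi₀⟩ := cheb
    obtain ⟨i, hi, hdec⟩ := decouple_TH928 μ (let_ S) S.b (fun k x => ((x k).1 : ℕ)) (fun k n => b_succ S k n) k₀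
      heq (2 * (S.c + 1)) ε hε (max i₀ p₀)
    have hstep : ∀ i' : ℕ, i ≤ i' → i' ≤ i + 1 →
        |s| * ∑ p ∈ QD i' (i' + 1), Real.log p / 2 ^ i' ≤
          ε + (∑ p ∈ QD i' (i' + 1), Real.log p / 2 ^ i') * ε := by
      intro i' h1 h2
      have hd := hdec i' h1 h2 (Psi S T k₀) (fun p n r => (Psi_abs S T k₀ p n r).le) (by
        intro p hp n n' r hwin hres
        have hp1 : p ≤ 2 ^ (i' + 1) := (mem_Ioc.1 (mem_filter.1 hp).1).2
        have hpp : p.Prime := (mem_filter.1 hp).2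
        refine Psi_inv S T k₀ z hz hbz p _ hpp.one_lt.le ?_ n n' r hwin (fun k hk => hres p hp k hk)
        calc S.c * p + p = (S.c + 1) * p := by ring
          _ ≤ (S.c + 1) * 2 ^ (i' + 1) := Nat.mul_le_mul_left _ hp1
          _ = 2 * (S.c + 1) * 2 ^ i' := by rw [pow_succ]; ring)
      have ha : ∀ p ∈ QD i' (i' + 1), 0 ≤ Real.log p / 2 ^ i' := by
        intro p hp
        have hpp : p.Prime := (mem_filter.1 hp).2
        exact div_nonneg (Real.log_nonneg (by exact_mod_cast hpp.one_lt.le)) (by positivity)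
      -- boundedness
      have hb1 : ∀ p, Bd (fun n => Psi S T k₀ p n (S.b k₀ n % p)) := fun p =>
        ⟨1, fun n => (Psi_abs S T k₀ p n _).le⟩
      have hb2 : ∀ p, Bd (fun n => (∑ r ∈ range p, Psi S T k₀ p n r) / p) := by
        intro p
        obtain ⟨C, hC⟩ := QQ_bd S k₀ p
        refine ⟨C, fun n => (Psi_avg S T k₀ p n).trans ((le_abs_self _).trans (hC _))⟩
      have hb3 : ∀ p : ℕ, Bd (fun n => Real.log p / 2 ^ i' *
          (Psi S T k₀ p n (S.b k₀ n % p) - (∑ r ∈ range p, Psi S T k₀ p n r) / p)) := by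
        intro p
        refine Bd.cmul _ ?_
        have := (hb1 p).add ((hb2 p).cmul (-1))
        simpa [sub_eq_add_neg] using this
      -- the mean of the difference
      have h3 : μ.m (fun n => ∑ p ∈ QD i' (i' + 1), Real.log p / 2 ^ i' *
          (Psi S T k₀ p n (S.b k₀ n % p) - (∑ r ∈ range p, Psi S T k₀ p n r) / p)) =
          ∑ p ∈ QD i' (i' + 1), Real.log p / 2 ^ i' *
            (s - μ.m (fun n => (∑ r ∈ range p, Psi S T k₀ p n r) / p)) := by
        rw [μ.sum _ (fun p _ => hb3 p)]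
        apply sum_congr rfl
        intro p hp
        have hpp : p.Prime := (mem_filter.1 hp).2
        have hb4 : Bd (fun n => Psi S T k₀ p n (S.b k₀ n % p) - (∑ r ∈ range p, Psi S T k₀ p n r) / p) := by
          have := (hb1 p).add ((hb2 p).cmul (-1))
          simpa [sub_eq_add_neg] using this
        rw [μ.smul _ _ hb4, μ.sub (hb1 p) (hb2 p)]
        congr 2
        rw [hs, ff_mean S T μ p hpp]
        congr 1
        funext m
        exact Psi_eq S T k₀ hk p m
      have h4 : |∑ p ∈ QD i' (i' + 1), Real.log p / 2 ^ i' *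
            (s - μ.m (fun n => (∑ r ∈ range p, Psi S T k₀ p n r) / p))| ≤ ε := by
        rw [← h3]
        exact (μ.abs_le (Bd.sum _ fun p _ => hb3 p)).trans hd
      have h5 : ∀ p ∈ QD i' (i' + 1), |μ.m (fun n => (∑ r ∈ range p, Psi S T k₀ p n r) / p)| ≤ ε := by
        intro p hp
        have hpp : p.Prime := (mem_filter.1 hp).2
        have hp1 : 2 ^ i' < p := (mem_Ioc.1 (mem_filter.1 hp).1).1
        have hp2 : p₀ ≤ p := by
          have h6 : p₀ ≤ i' := (le_max_right _ _).trans (hi.trans h1)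
          have h7 : i' < 2 ^ i' := Nat.lt_two_pow_self
          omega
        refine (μ.abs_le (hb2 p)).trans (le_trans ?_ (hp₀ p hp2))
        rw [← shift_avg μ S.c p hpp.one_lt.le (QQ_bd S k₀ p)]
        exact μ.mono (hb2 p).abs ((QQ_bd S k₀ p).comp _) (fun n => Psi_avg S T k₀ p n)
      have h6 : (∑ p ∈ QD i' (i' + 1), Real.log p / 2 ^ i') * s =
          ∑ p ∈ QD i' (i' + 1), Real.log p / 2 ^ i' *
            (s - μ.m (fun n => (∑ r ∈ range p, Psi S T k₀ p n r) / p)) +
          ∑ p ∈ QD i' (i' + 1), Real.log p / 2 ^ i' *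
            μ.m (fun n => (∑ r ∈ range p, Psi S T k₀ p n r) / p) := by
        rw [← sum_add_distrib, sum_mul]
        apply sum_congr rfl
        intro p _
        ring
      have h7 : |∑ p ∈ QD i' (i' + 1), Real.log p / 2 ^ i' *
            μ.m (fun n => (∑ r ∈ range p, Psi S T k₀ p n r) / p)| ≤
            (∑ p ∈ QD i' (i' + 1), Real.log p / 2 ^ i') * ε := by
        refine (abs_sum_le_sum_abs _ _).trans ?_
        rw [sum_mul]
        apply sum_le_sum
        intro p hp
        rw [abs_mul, abs_of_nonneg (ha p hp)]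
        exact mul_le_mul_of_nonneg_left (h5 p hp) (ha p hp)
      have h8 : |s| * ∑ p ∈ QD i' (i' + 1), Real.log p / 2 ^ i' =
          |(∑ p ∈ QD i' (i' + 1), Real.log p / 2 ^ i') * s| := by
        rw [abs_mul, abs_of_nonneg (sum_nonneg ha), mul_comm]
      rw [h8, h6]
      exact (abs_add_le _ _).trans (add_le_add h4 h7)
    have ha := hstep i le_rfl (by omega)
    have hb := hstep (i + 1) (by omega) le_rfl
    have hc := hi₀ i ((le_max_left _ _).trans hi)
    set A := ∑ p ∈ QD i (i + 1), Real.log p / 2 ^ i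
    set B := ∑ p ∈ QD (i + 1) (i + 1 + 1), Real.log p / 2 ^ (i + 1)
    have hc' : 1 ≤ A + 2 * B := hc
    have h9 : |s| * (A + 2 * B) ≤ 3 * ε + (A + 2 * B) * ε := by nlinarith
    have h10 : |s| ≤ 3 * ε / (A + 2 * B) + ε := by
      rw [← sub_le_iff_le_add, le_div_iff₀ (by linarith)]
      linarith
    have h11 : 3 * ε / (A + 2 * B) ≤ 3 * ε := div_le_self (by positivity) hc'
    linarith
  by_contra hne
  have h1 : 0 < |s| := abs_pos.2 hne
  have := key (|s| / 8) (by positivity)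
  linarith

end Pool.Agent.TH112.BL
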