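import Pool.Agent.H376R2.MR.Defs

/-!
Project BL (helper112): correlations of the Liouville function along several Beatty sequences
(MP_67663b_nt). Definitions.
-/

set_option autoImplicit false

namespace Pool.Agent.TH112.BL

open Finset Filter

/-- bounded functions -/
def Bd (φ : ℕ → ℝ) : Prop := ∃ C : ℝ, ∀ n, |φ n| ≤ C

/-- shift invariant, dilation covariant means on bounded real functions on `ℕ` -/
structure LM where
  m : (ℕ → ℝ) → ℝ
  add : ∀ φ ψ, Bd φ → Bd ψ → m (fun n => φ n + ψ n) = m φ + m ψ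
  smul : ∀ (c : ℝ) (φ), Bd φ → m (fun n => c * φ n) = c * m φ
  nonneg : ∀ φ, Bd φ → (∀ n, 0 ≤ φ n) → 0 ≤ m φ
  one : m (fun _ => 1) = 1
  shift : ∀ φ, Bd φ → m (fun n => φ (n + 1)) = m φ
  dil : ∀ (p : ℕ) (φ), 1 ≤ p → Bd φ →
    m (fun n => φ (p * n)) = m (fun n => if p ∣ n then (p : ℝ) * φ n else 0)

/-- primes in `(2^a, 2^b]` -/
def QD (a b : ℕ) : Finset ℕ := (Ioc (2 ^ a) (2 ^ b)).filter Nat.Prime

/-- window of length `W` at `n` -/
def win {A : Type} (W : ℕ) (a : ℕ → A) (n : ℕ) : Fin W → A := fun j => a (n + j)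

end Pool.Agent.TH112.BL
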