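import Pool.Agent.TH112.BL.Core
import Pool.Agent.TH503.BL.J2
import Pool.Agent.TH833.BL.J4542
import Pool.Agent.TH460.BL.J4544

/-!
Project BL (helper112): the theorem for floor sequences.
-/

set_option autoImplicit false

namespace Pool.Agent.TH112.BL

open Finset Filter Pool.Agent.H376R2.MR

/-- the sequences `n` and `⌊α_k n⌋` -/
noncomputable def fb {κ : Type} (α : κ → ℝ) : Option κ → ℕ → ℕ
  | none => fun n => n
  | some k => fun n => ⌊α k * (n : ℝ)⌋₊

lemma fb_bound {κ : Type} [Fintype κ] (α : κ → ℝ) (hpos : ∀ k, 0 < α k) :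
    ∃ C : ℕ, 1 ≤ C ∧ ∀ k, α k ≤ C ∧ 1 ≤ α k * C := by
  classical
  have h1 : ∀ k, ∃ C : ℕ, ∀ C' : ℕ, C ≤ C' → α k ≤ C' ∧ 1 ≤ α k * C' := by
    intro k
    obtain ⟨A, hA⟩ := exists_nat_ge (α k)
    obtain ⟨B, hB⟩ := exists_nat_ge (1 / α k)
    refine ⟨max A B, fun C' hC => ⟨?_, ?_⟩⟩
    · exact hA.trans (by exact_mod_cast (le_max_left A B).trans hC)
    · have h2 : 1 / α k ≤ C' := hB.trans (by exact_mod_cast (le_max_right A B).trans hC)
      have h3 := hpos k
      rw [div_le_iff₀ h3] at h2
      linarith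
  choose C hC using h1
  refine ⟨1 + ∑ k, C k, by omega, fun k => hC k _ ?_⟩
  have := Finset.single_le_sum (f := C) (fun i _ => Nat.zero_le _) (mem_univ k)
  omega

/-- the system -/
noncomputable def fsys {κ : Type} [Fintype κ] (α : κ → ℝ) (hpos : ∀ k, 0 < α k) : Sys (Option κ) where
  b := fb α
  D := (fb_bound α hpos).choose + 1
  c := (fb_bound α hpos).choose
  mono := by
    intro k n
    cases k with
    | none => exact Nat.le_succ n
    | some k =>
      unfold fb
      apply Nat.floor_le_floor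
      exact mul_le_mul_of_nonneg_left (by push_cast; linarith) (hpos k).le
  step := by
    intro k n
    obtain ⟨h1, h2⟩ := (fb_bound α hpos).choose_spec
    set C := (fb_bound α hpos).choose
    cases k with
    | none => unfold fb; simp only; omega
    | some k =>
      unfold fb
      simp only
      have h3 := (h2 k).1
      have h4 : α k * ((n + 1 : ℕ) : ℝ) ≤ α k * n + C := by
        push_cast
        linarith
      have h5 : ⌊α k * (n : ℝ) + C⌋₊ = ⌊α k * (n : ℝ)⌋₊ + C :=
        Nat.floor_add_natCast (mul_nonneg (hpos k).le (Nat.cast_nonneg n)) C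
      have h6 := Nat.floor_le_floor h4
      rw [h5] at h6
      omega
  dil := by
    intro k p n hp
    cases k with
    | none => unfold fb; simp only; exact Nat.mul_div_cancel_left n hp
    | some k =>
      unfold fb
      simp only
      rw [← Nat.floor_div_natCast]
      congr 1
      have : (p : ℝ) ≠ 0 := by
        have : (1 : ℝ) ≤ p := by exact_mod_cast hp
        linarith
      push_cast
      field_simp
  off := by
    intro k p n j hj
    obtain ⟨h1, h2⟩ := (fb_bound α hpos).choose_spec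
    set C := (fb_bound α hpos).choose
    cases k with
    | none =>
      unfold fb; simp only
      have : 1 * p ≤ C * p := Nat.mul_le_mul_right p h1
      omega
    | some k =>
      unfold fb
      simp only
      have h3 := (h2 k).2
      have h5 : ⌊α k * (n : ℝ) + p⌋₊ = ⌊α k * (n : ℝ)⌋₊ + p :=
        Nat.floor_add_natCast (mul_nonneg (hpos k).le (Nat.cast_nonneg n)) p
      rw [← h5]
      apply Nat.floor_le_floor
      push_cast
      rw [mul_add]
      have h6 : (C : ℝ) * p ≤ j := by exact_mod_cast hj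
      have h7 : (p : ℝ) ≤ α k * j := by
        have h8 : α k * (C * p) ≤ α k * j := mul_le_mul_of_nonneg_left h6 (hpos k).le
        have h9 : (0 : ℝ) ≤ p := Nat.cast_nonneg p
        nlinarith
      linarith

open scoped Classical in
/-- every mean of the product vanishes -/
theorem mean_zero (μ : LM) {κ : Type} [Fintype κ] (α : κ → ℝ) (hpos : ∀ k, 0 < α k)
    (hirr : ∀ k, Irrational (α k)) (k₀ : κ)
    (hind : α k₀ ∉ Submodule.span ℚ (insert (1 : ℝ) (α '' {k | k ≠ k₀})))
    (hle : ∀ φ : ℕ → ℝ, Bd φ → ∀ c : ℝ,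
      (∃ N₀ : ℕ, ∀ N : ℕ, N₀ ≤ N → ∑ n ∈ Icc 1 N, (1 / (n : ℝ)) * φ n ≤ c * Real.log N) →
      μ.m φ ≤ c) (T : Finset (Option κ)) (hT : some k₀ ∈ T) :
    μ.m (ff (fsys α hpos) T) = 0 := by
  refine core μ (fsys α hpos) T (some k₀) none (by simp) hT (fun n => rfl) ?_ ?_
  · intro W hW r v hr
    have h1 := equi μ α hpos hirr k₀ hind W hW (fun k => v (some k)) (v none) r hr
    have h2 : ∀ n : ℕ, (∀ k : Option κ, k ≠ some k₀ → (fsys α hpos).b k n % W = v k) ↔
        (n % W = v none ∧ ∀ k, k ≠ k₀ → ⌊α k * (n : ℝ)⌋₊ % W = v (some k)) := by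
      intro n
      constructor
      · intro h
        refine ⟨h none (by simp), fun k hk => h (some k) (by simpa using hk)⟩
      · rintro ⟨h3, h4⟩ k hk
        cases k with
        | none => exact h3
        | some k => exact h4 k (by simpa using hk)
    simp only [h2]
    exact h1
  · intro ε hε
    obtain ⟨p₀, hp₀⟩ := Pool.Agent.TH503.BL.mr_beatty (α k₀) (hpos k₀) ε hε
    refine ⟨p₀, fun p hp => ?_⟩
    apply hle _ ((QQ_bd _ _ _).comp _)
    exact hp₀ p hp

/-- the general theorem: products over a set of the sequences `n`, `⌊α_k n⌋` -/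
theorem main {κ : Type} [Fintype κ] (α : κ → ℝ) (hpos : ∀ k, 0 < α k)
    (hirr : ∀ k, Irrational (α k)) (k₀ : κ)
    (hind : α k₀ ∉ Submodule.span ℚ (insert (1 : ℝ) (α '' {k | k ≠ k₀})))
    (T : Finset (Option κ)) (hT : some k₀ ∈ T) :
    Tendsto (fun N : ℕ => (1 / Real.log (N : ℝ)) *
      ∑ n ∈ Icc 1 N, (1 / (n : ℝ)) * ∏ k ∈ T, lr (fb α k n)) atTop (nhds 0) := by
  classical
  by_contra hne
  obtain ⟨μ, h1, h2⟩ := Pool.Agent.TH833.BL.mean_exists (fun n => ∏ k ∈ T, lr (fb α k n))
    (ff_bd (fsys α hpos) T) hne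
  exact h1 (mean_zero μ α hpos hirr k₀ hind h2 T hT)

end Pool.Agent.TH112.BL
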