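import Pool.Agent.TH112.BL.Defs

/-!
Project BL (helper112): elementary properties of the means.
-/

set_option autoImplicit false

namespace Pool.Agent.TH112.BL

open Finset Filter

lemma Bd.add {φ ψ : ℕ → ℝ} (h1 : Bd φ) (h2 : Bd ψ) : Bd (fun n => φ n + ψ n) := by
  obtain ⟨C, hC⟩ := h1
  obtain ⟨D, hD⟩ := h2
  exact ⟨C + D, fun n => (abs_add_le _ _).trans (add_le_add (hC n) (hD n))⟩

lemma Bd.cmul {φ : ℕ → ℝ} (c : ℝ) (h1 : Bd φ) : Bd (fun n => c * φ n) := by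
  obtain ⟨C, hC⟩ := h1
  refine ⟨|c| * C, fun n => ?_⟩
  rw [abs_mul]
  exact mul_le_mul_of_nonneg_left (hC n) (abs_nonneg c)

lemma Bd.const (c : ℝ) : Bd (fun _ => c) := ⟨|c|, fun _ => le_rfl⟩

lemma Bd.abs {φ : ℕ → ℝ} (h1 : Bd φ) : Bd (fun n => |φ n|) := by
  obtain ⟨C, hC⟩ := h1
  exact ⟨C, fun n => by rw [abs_abs]; exact hC n⟩

lemma Bd.comp {φ : ℕ → ℝ} (h1 : Bd φ) (g : ℕ → ℕ) : Bd (fun n => φ (g n)) := by
  obtain ⟨C, hC⟩ := h1
  exact ⟨C, fun n => hC _⟩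

lemma Bd.ite {φ : ℕ → ℝ} (h1 : Bd φ) (P : ℕ → Prop) [DecidablePred P] :
    Bd (fun n => if P n then φ n else 0) := by
  obtain ⟨C, hC⟩ := h1
  refine ⟨C, fun n => ?_⟩
  show |if P n then φ n else 0| ≤ C
  split_ifs
  · exact hC n
  · rw [abs_zero]; exact (abs_nonneg _).trans (hC n)

lemma Bd.sum {ι : Type*} (s : Finset ι) {φ : ι → ℕ → ℝ} (h : ∀ i ∈ s, Bd (φ i)) :
    Bd (fun n => ∑ i ∈ s, φ i n) := by
  classical
  induction s using Finset.induction_on with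
  | empty => simpa using Bd.const 0
  | insert i s hi ih =>
    simp only [sum_insert hi]
    exact (h i (mem_insert_self _ _)).add (ih fun j hj => h j (mem_insert_of_mem hj))

lemma Bd.of_le {φ : ℕ → ℝ} (C : ℝ) (h : ∀ n, |φ n| ≤ C) : Bd φ := ⟨C, h⟩

namespace LM

variable (μ : LM)

lemma neg {φ : ℕ → ℝ} (h : Bd φ) : μ.m (fun n => - φ n) = - μ.m φ := by
  have := μ.smul (-1) φ h
  simpa using this

lemma zero : μ.m (fun _ => 0) = 0 := by
  have := μ.smul 0 (fun _ => 1) (Bd.const 1)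
  simpa using this

lemma sub {φ ψ : ℕ → ℝ} (h1 : Bd φ) (h2 : Bd ψ) : μ.m (fun n => φ n - ψ n) = μ.m φ - μ.m ψ := by
  have h3 : Bd (fun n => - ψ n) := by simpa using h2.cmul (-1)
  have := μ.add φ (fun n => - ψ n) h1 h3
  rw [μ.neg h2] at this
  simpa [sub_eq_add_neg] using this

lemma mono {φ ψ : ℕ → ℝ} (h1 : Bd φ) (h2 : Bd ψ) (h : ∀ n, φ n ≤ ψ n) : μ.m φ ≤ μ.m ψ := by
  have h3 : Bd (fun n => ψ n - φ n) := by
    have := h2.add (h1.cmul (-1))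
    simpa [sub_eq_add_neg] using this
  have h4 := μ.nonneg (fun n => ψ n - φ n) h3 (fun n => sub_nonneg.2 (h n))
  rw [μ.sub h2 h1] at h4
  linarith

lemma sum {ι : Type*} (s : Finset ι) {φ : ι → ℕ → ℝ} (h : ∀ i ∈ s, Bd (φ i)) :
    μ.m (fun n => ∑ i ∈ s, φ i n) = ∑ i ∈ s, μ.m (φ i) := by
  classical
  induction s using Finset.induction_on with
  | empty => simpa using μ.zero
  | insert i s hi ih =>
    simp only [sum_insert hi]
    have h1 : ∀ j ∈ s, Bd (φ j) := fun j hj => h j (mem_insert_of_mem hj)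
    rw [μ.add (φ i) (fun n => ∑ j ∈ s, φ j n) (h i (mem_insert_self _ _)) (Bd.sum s h1), ih h1]

lemma abs_le {φ : ℕ → ℝ} (h : Bd φ) : |μ.m φ| ≤ μ.m (fun n => |φ n|) := by
  rw [_root_.abs_le]
  constructor
  · have h1 := μ.mono (φ := fun n => - |φ n|) (ψ := φ) (by simpa using h.abs.cmul (-1)) h
      (fun n => neg_abs_le _)
    rw [μ.neg h.abs] at h1
    exact h1
  · exact μ.mono h h.abs fun n => le_abs_self _

lemma shiftk (k : ℕ) {φ : ℕ → ℝ} (h : Bd φ) : μ.m (fun n => φ (n + k)) = μ.m φ := by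
  induction k with
  | zero => simp
  | succ k ih =>
    rw [← ih, ← μ.shift (fun n => φ (n + k)) (h.comp _)]
    congr 1
    funext n
    congr 1
    ring

lemma congr_large {φ ψ : ℕ → ℝ} (h1 : Bd φ) (h2 : Bd ψ) (N : ℕ) (h : ∀ n, N ≤ n → φ n = ψ n) :
    μ.m φ = μ.m ψ := by
  rw [← μ.shiftk N h1, ← μ.shiftk N h2]
  congr 1
  funext n
  exact h _ (Nat.le_add_left _ _)

end LM

end Pool.Agent.TH112.BL
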