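import Pool.Agent.TH112.BL.Mean

/-!
Project BL (helper112): systems of sequences compatible with dilations, windows, the local functions.
-/

set_option autoImplicit false

namespace Pool.Agent.TH112.BL

open Finset Filter Pool.Agent.H376R2.MR

/-- `λ` as a real number -/
noncomputable def lr (n : ℕ) : ℝ := ((lam n : ℤ) : ℝ)

lemma lam_cases (n : ℕ) : lam n = 1 ∨ lam n = -1 := by
  unfold lam
  exact neg_one_pow_eq_or ℤ _

lemma abs_lr (n : ℕ) : |lr n| = 1 := by
  unfold lr
  rcases lam_cases n with h | h <;> rw [h] <;> simp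

lemma lam_prime_mul {p x : ℕ} (hp : p.Prime) (hx : 1 ≤ x) : lr (p * x) = - lr x := by
  unfold lr lam
  rw [ArithmeticFunction.cardFactors_mul hp.ne_zero (by omega),
    ArithmeticFunction.cardFactors_apply_prime hp, pow_add, pow_one]
  push_cast
  ring

/-- the systems -/
structure Sys (ι : Type) where
  b : ι → ℕ → ℕ
  D : ℕ
  c : ℕ
  mono : ∀ k n, b k n ≤ b k (n + 1)
  step : ∀ k n, b k (n + 1) ≤ b k n + D
  dil : ∀ k p n, 1 ≤ p → b k (p * n) / p = b k n
  off : ∀ k p n j, c * p ≤ j → b k n + p ≤ b k (n + j)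

/-- the offset -/
def jj (c p m : ℕ) : ℕ := c * p + (p - m % p) % p

lemma jj_dvd (c p m : ℕ) (hp : 1 ≤ p) : p ∣ m + jj c p m := by
  unfold jj
  have h1 := Nat.div_add_mod m p
  have h2 := Nat.mod_lt m hp
  rcases Nat.eq_zero_or_pos (m % p) with h | h
  · rw [h, Nat.sub_zero, Nat.mod_self, add_zero]
    exact (Nat.dvd_of_mod_eq_zero h).add (dvd_mul_left _ _)
  · rw [Nat.mod_eq_of_lt (by omega : p - m % p < p)]
    refine ⟨m / p + c + 1, ?_⟩
    have h3 : m + (c * p + (p - m % p)) = (m - m % p) + c * p + p := by omega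
    have h4 : m - m % p = p * (m / p) := by omega
    rw [h3, h4]
    ring

lemma jj_ge (c p m : ℕ) : c * p ≤ jj c p m := Nat.le_add_right _ _

lemma jj_lt (c p m : ℕ) (hp : 1 ≤ p) : jj c p m < c * p + p := by
  unfold jj
  have := Nat.mod_lt (p - m % p) hp
  omega

lemma jj_uniq (c p m j : ℕ) (hp : 1 ≤ p) (h1 : c * p ≤ j) (h2 : j < c * p + p) (h3 : p ∣ m + j) :
    j = jj c p m := by
  have h4 := jj_dvd c p m hp
  have h5 := jj_ge c p m
  have h6 := jj_lt c p m hp
  rcases le_total j (jj c p m) with h | h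
  · have h7 : p ∣ jj c p m - j := by
      have := Nat.dvd_sub h4 h3
      rwa [Nat.add_sub_add_left] at this
    have h8 := Nat.eq_zero_of_dvd_of_lt h7 (by omega)
    omega
  · have h7 : p ∣ j - jj c p m := by
      have := Nat.dvd_sub h3 h4
      rwa [Nat.add_sub_add_left] at this
    have h8 := Nat.eq_zero_of_dvd_of_lt h7 (by omega)
    omega

lemma shift_avg (μ : LM) (c p : ℕ) (hp : 1 ≤ p) {g : ℕ → ℝ} (hg : Bd g) :
    μ.m (fun m => g (m + jj c p m)) = μ.m (fun n => g (p * n)) := by
  have h1 : ∀ m, g (m + jj c p m) =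
      ∑ j ∈ Ico (c * p) (c * p + p), if p ∣ m + j then g (m + j) else 0 := by
    intro m
    rw [sum_eq_single (jj c p m)]
    · rw [if_pos (jj_dvd c p m hp)]
    · intro j hj hne
      rw [mem_Ico] at hj
      rw [if_neg]
      intro h
      exact hne (jj_uniq c p m j hp hj.1 hj.2 h)
    · intro h
      exact absurd (mem_Ico.2 ⟨jj_ge c p m, jj_lt c p m hp⟩) h
  have h2 : ∀ j, μ.m (fun m => if p ∣ m + j then g (m + j) else 0) =
      μ.m (fun m => if p ∣ m then g m else 0) := by
    intro j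
    exact μ.shiftk j (φ := fun m => if p ∣ m then g m else 0) (hg.ite _)
  simp only [h1]
  rw [μ.sum _ (fun j _ => (hg.ite (fun m => p ∣ m)).comp (fun m => m + j))]
  simp only [h2]
  rw [sum_const, Nat.card_Ico, Nat.add_sub_cancel_left, nsmul_eq_mul,
    μ.dil p g hp hg, ← μ.smul _ _ (hg.ite _)]
  congr 1
  funext n
  split_ifs
  · rfl
  · rw [mul_zero]

section local_

variable {ι : Type} [DecidableEq ι] (S : Sys ι) (T : Finset ι) (k₀ : ι)

/-- the function `∏ λ(b_k(n))` -/
noncomputable def ff (n : ℕ) : ℝ := ∏ k ∈ T, lr (S.b k n)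

/-- its dilate -/
noncomputable def gg (p x : ℕ) : ℝ := (-1) ^ T.card * ∏ k ∈ T, lr (S.b k x - S.b k x % p)

/-- the local function -/
noncomputable def Psi (p m r : ℕ) : ℝ :=
  (-1) ^ T.card * (∏ k ∈ T.erase k₀, lr (S.b k (m + jj S.c p m) - S.b k (m + jj S.c p m) % p)) *
    lr (S.b k₀ (m + jj S.c p m) - (r + (S.b k₀ (m + jj S.c p m) - S.b k₀ m)) % p)

lemma mono_add (k : ι) (n j : ℕ) : S.b k n ≤ S.b k (n + j) := by
  induction j with
  | zero => exact le_rfl
  | succ j ih => exact ih.trans (S.mono k (n + j))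

lemma abs_prod_lr (s : Finset ι) (f : ι → ℕ) : |∏ k ∈ s, lr (f k)| = 1 := by
  rw [abs_prod]
  exact prod_eq_one fun k _ => abs_lr _

lemma ff_bd : Bd (ff S T) := ⟨1, fun n => (abs_prod_lr T _).le⟩

lemma gg_abs (p x : ℕ) : |gg S T p x| = 1 := by
  unfold gg
  rw [abs_mul, abs_prod_lr, abs_pow, abs_neg, abs_one, one_pow, one_mul]

lemma gg_bd (p : ℕ) : Bd (gg S T p) := ⟨1, fun n => (gg_abs S T p n).le⟩

lemma Psi_abs (p m r : ℕ) : |Psi S T k₀ p m r| = 1 := by
  unfold Psi
  rw [abs_mul, abs_mul, abs_prod_lr, abs_pow, abs_neg, abs_one, one_pow, one_mul, abs_lr, one_mul]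

lemma b_pos (k : ι) (n : ℕ) (hn : S.c ≤ n) : 1 ≤ S.b k n := by
  have := S.off k 1 0 n (by omega)
  rw [zero_add] at this
  omega

lemma gg_dil (p : ℕ) (hp : p.Prime) (n : ℕ) (hn : S.c ≤ n) : gg S T p (p * n) = ff S T n := by
  unfold gg ff
  have h1 : ∀ k ∈ T, lr (S.b k (p * n) - S.b k (p * n) % p) = - lr (S.b k n) := by
    intro k _
    have h2 := S.dil k p n hp.one_lt.le
    have h3 := Nat.div_add_mod (S.b k (p * n)) p
    have h4 : S.b k (p * n) - S.b k (p * n) % p = p * S.b k n := by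
      rw [h2] at h3
      omega
    rw [h4, lam_prime_mul hp (b_pos S k n hn)]
  rw [prod_congr rfl h1, prod_neg]
  rw [← mul_assoc, ← mul_pow]
  norm_num

lemma ff_mean (μ : LM) (p : ℕ) (hp : p.Prime) :
    μ.m (ff S T) = μ.m (fun m => gg S T p (m + jj S.c p m)) := by
  rw [shift_avg μ S.c p hp.one_lt.le (gg_bd S T p)]
  exact μ.congr_large (ff_bd S T) ((gg_bd S T p).comp _) S.c
    (fun n hn => (gg_dil S T p hp n hn).symm)

lemma Psi_eq (hk : k₀ ∈ T) (p m : ℕ) :
    Psi S T k₀ p m (S.b k₀ m % p) = gg S T p (m + jj S.c p m) := by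
  unfold Psi gg
  set J := jj S.c p m
  have h1 := mono_add S k₀ m J
  have h2 : (S.b k₀ m % p + (S.b k₀ (m + J) - S.b k₀ m)) % p = S.b k₀ (m + J) % p := by
    rw [Nat.mod_add_mod]
    congr 1
    omega
  rw [h2, mul_assoc, prod_erase_mul T _ hk]

lemma sum_rot (p δ : ℕ) (F : ℕ → ℝ) :
    ∑ r ∈ range p, F ((r + δ) % p) = ∑ s ∈ range p, F s := by
  rcases Nat.eq_zero_or_pos p with h0 | hp
  · subst h0; simp
  have hinj : Set.InjOn (fun r => (r + δ) % p) (range p : Set ℕ) := by
    intro r hr s hs h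
    simp only [coe_range, Set.mem_Iio] at hr hs
    have h1 : r + δ ≡ s + δ [MOD p] := h
    have h2 := Nat.ModEq.add_right_cancel' δ h1
    unfold Nat.ModEq at h2
    rwa [Nat.mod_eq_of_lt hr, Nat.mod_eq_of_lt hs] at h2
  have himg : (range p).image (fun r => (r + δ) % p) = range p := by
    apply eq_of_subset_of_card_le
    · intro x hx
      rw [mem_image] at hx
      obtain ⟨r, _, rfl⟩ := hx
      exact mem_range.2 (Nat.mod_lt _ hp)
    · rw [card_image_of_injOn hinj]
  conv_rhs => rw [← himg]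
  rw [sum_image hinj]

/-- average over short intervals -/
noncomputable def QQ (p x : ℕ) : ℝ := |∑ s ∈ range p, lr (S.b k₀ x - s)| / p

lemma Psi_avg (p m : ℕ) :
    |(∑ r ∈ range p, Psi S T k₀ p m r) / p| ≤ QQ S k₀ p (m + jj S.c p m) := by
  unfold Psi QQ
  set J := jj S.c p m
  rw [← mul_sum, sum_rot p (S.b k₀ (m + J) - S.b k₀ m) (fun x => lr (S.b k₀ (m + J) - x)),
    abs_div, abs_mul, abs_mul, abs_prod_lr, abs_pow, abs_neg, abs_one, one_pow, one_mul, one_mul,
    Nat.abs_cast]

lemma QQ_bd (p : ℕ) : Bd (QQ S k₀ p) := by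
  refine ⟨1, fun x => ?_⟩
  unfold QQ
  rw [abs_div, abs_abs, Nat.abs_cast]
  rcases Nat.eq_zero_or_pos p with h0 | hp
  · subst h0; simp
  · have hp' : (0 : ℝ) < p := by exact_mod_cast hp
    rw [div_le_one hp']
    refine (abs_sum_le_sum_abs _ _).trans ?_
    simp [abs_lr]

end local_

section letters

open scoped Classical in
/-- the letters -/
noncomputable def let_ {ι : Type} (S : Sys ι) (n : ℕ) : ι → Fin (S.D + 1) × (Fin (S.D + 1) → Bool) :=
  fun k => (⟨S.b k (n + 1) - S.b k n, by have := S.step k n; omega⟩,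
    fun h => decide (lam (S.b k n + h) = 1))

variable {ι : Type} (S : Sys ι)

lemma b_succ (k : ι) (n : ℕ) : S.b k (n + 1) = S.b k n + ((let_ S n k).1 : ℕ) := by
  have h1 := S.mono k n
  unfold let_
  simp only
  omega

lemma lam_letter (k : ι) {n n' : ℕ} (h : let_ S n = let_ S n') (x : ℕ) (hx : x ≤ S.D) :
    lam (S.b k n + x) = lam (S.b k n' + x) := by
  have h1 := congrFun h k
  have h2 : (let_ S n k).2 ⟨x, by omega⟩ = (let_ S n' k).2 ⟨x, by omega⟩ := by rw [h1]
  unfold let_ at h2
  simp only [decide_eq_decide] at h2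
  rcases lam_cases (S.b k n + x) with h3 | h3
  · rw [h3, h2.1 h3]
  · rcases lam_cases (S.b k n' + x) with h4 | h4
    · rw [h2.2 h4, h4]
    · rw [h3, h4]

lemma win_letter {W n n' : ℕ} (h : win W (let_ S) n = win W (let_ S) n') (j : ℕ) (hj : j < W) :
    let_ S (n + j) = let_ S (n' + j) := congrFun h ⟨j, hj⟩

lemma read_pos (k : ι) {W n n' : ℕ} (h : win W (let_ S) n = win W (let_ S) n') (j : ℕ) (hj : j ≤ W) :
    S.b k (n + j) - S.b k n = S.b k (n' + j) - S.b k n' := by
  induction j with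
  | zero => simp
  | succ j ih =>
    have h1 := ih (by omega)
    have h2 := win_letter S h j (by omega)
    have h3 := b_succ S k (n + j)
    have h4 := b_succ S k (n' + j)
    have h5 : S.b k n ≤ S.b k (n + j) := by
      clear h1 h2 h3 h4 ih hj
      induction j with
      | zero => exact le_rfl
      | succ j ih => exact ih.trans (S.mono k (n + j))
    have h6 : S.b k n' ≤ S.b k (n' + j) := by
      clear h1 h2 h3 h4 ih hj h5
      induction j with
      | zero => exact le_rfl
      | succ j ih => exact ih.trans (S.mono k (n' + j))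
    rw [h2] at h3
    rw [← add_assoc, ← add_assoc, h3, h4]
    omega

lemma read_lam (k : ι) {W n n' : ℕ} (h : win W (let_ S) n = win W (let_ S) n') (j : ℕ) (hj : j < W) :
    ∀ y : ℕ, y ≤ S.b k (n + j) - S.b k n → lam (S.b k n + y) = lam (S.b k n' + y) := by
  induction j with
  | zero =>
    intro y hy
    have h2 := win_letter S h 0 hj
    rw [add_zero, add_zero] at h2
    have hy0 : y = 0 := by simpa using hy
    subst hy0
    exact lam_letter S k h2 0 (Nat.zero_le _)
  | succ j ih =>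
    intro y hy
    rcases Nat.lt_or_ge (S.b k (n + j) - S.b k n) y with h1 | h1
    · have h2 := win_letter S h j (by omega)
      have h3 := read_pos S k h j (by omega)
      have h5 : S.b k n ≤ S.b k (n + j) := by
        clear h1 h2 h3 ih hj hy
        induction j with
        | zero => exact le_rfl
        | succ j ih => exact ih.trans (S.mono k (n + j))
      have h6 : S.b k n' ≤ S.b k (n' + j) := by
        clear h1 h2 h3 ih hj hy h5
        induction j with
        | zero => exact le_rfl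
        | succ j ih => exact ih.trans (S.mono k (n' + j))
      have h4 := S.step k (n + j)
      have h7 := lam_letter S k h2 (y - (S.b k (n + j) - S.b k n)) (by
        rw [← add_assoc] at hy
        omega)
      have e1 : S.b k (n + j) + (y - (S.b k (n + j) - S.b k n)) = S.b k n + y := by omega
      have e2 : S.b k (n' + j) + (y - (S.b k (n + j) - S.b k n)) = S.b k n' + y := by omega
      rw [e1, e2] at h7
      exact h7
    · exact ih (by omega) y h1

end letters

end Pool.Agent.TH112.BL
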